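import Pool.Agent.helper34.PB.Box

/-!
# Countable weak pi-bases: unit balls of spaces with a 1-unconditional basis, and all bounded convex sets invariant under phases

Q1 asks whether the unit ball `B_X` of a Banach space `X`, real or complex, with a 1-unconditional basis, in the relative weak topology,
always has a countable pi-base. THEOREM: yes. The same is true for every bounded convex set `K` (no closedness, no interior) which contains with
`x = ∑ a_n e_n` all vectors `∑ ε_n a_n e_n`, `|ε_n| = 1`. Moreover, every nonempty relatively weakly open subset of `K` contains all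
points of `K` whose first `N` coefficients are close to those of a certain point of `K` with finitely many nonzero coefficients: the pi-base
consists of coordinate boxes.

PROOF (`Pool/Agent/helper34/PB`). Let `V` be given by functionals `f_1, ..., f_k`, and let `w(x) = ∑_n (|f_1(e_n)| + ... + |f_k(e_n)|) |a_n|`,
bounded on `K` by a choice of the phases. Take a finitely supported `a` in `V` for which `w(a)` is almost maximal. If there were, for every
`N`, a tail `z` beyond `N` with `a + z` almost in `K` and `w(z) > η`, take two of them, `z` and `z'`, with disjoint supports and almost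
the same values `f_i(z)`, `f_i(z')` (compactness). Then `a + (z - z')/2`, half the sum of `a + z` and `a - z'`, is almost in `K`, almost
in the same place for the `f_i`, and `w(a + (z - z')/2) = w(a) + (w(z) + w(z'))/2 > w(a) + η`: a contradiction. So all tails beyond some
`N` are small, and the first `N` coefficients decide.
-/

set_option autoImplicit false

open Filter Topology

namespace Pool.Agent.Results.MP_53fbd4_an.UnconditionalPiBase

universe u

section defs

variable (𝕜 : Type) [RCLike 𝕜] {X : Type u} [NormedAddCommGroup X] [NormedSpace 𝕜 X]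

/-- The series `∑ a_n e_n` converges to `x`. -/
def SumsTo (e : ℕ → X) (a : ℕ → 𝕜) (x : X) : Prop :=
  Tendsto (fun N => ∑ n ∈ Finset.range N, a n • e n) atTop (𝓝 x)

/-- `(e_n)` is a Schauder basis: every `x` is the sum of a series `∑ a_n e_n` with uniquely determined coefficients. -/
def IsSchauderBasis (e : ℕ → X) : Prop :=
  ∀ x : X, ∃! a : ℕ → 𝕜, SumsTo 𝕜 e a x

/-- `‖∑ ε_n a_n e_n‖ = ‖∑ a_n e_n‖` for all finite sums and all scalars `ε_n` of modulus 1. -/
def OneUnconditional (e : ℕ → X) : Prop :=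
  ∀ (N : ℕ) (a ε : ℕ → 𝕜), (∀ n, ‖ε n‖ = 1) →
    ‖∑ n ∈ Finset.range N, (ε n * a n) • e n‖ = ‖∑ n ∈ Finset.range N, a n • e n‖

/-- `V` is open in the weak topology of `X`. -/
def WeaklyOpen (V : Set X) : Prop := IsOpen ((toWeakSpace 𝕜 X).symm ⁻¹' V)

/-- `U` is an open subset of `K` in the relative weak topology. -/
def RelOpen (K U : Set X) : Prop := ∃ V : Set X, WeaklyOpen 𝕜 V ∧ U = V ∩ K

/-- `K`, with the relative weak topology, has a countable pi-base: a countable family `P` of nonempty relatively weakly open subsets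
such that every nonempty relatively weakly open subset of `K` contains a member of `P`. -/
def CountablePiBase (K : Set X) : Prop :=
  ∃ P : Set (Set X), P.Countable ∧ (∀ U ∈ P, RelOpen 𝕜 K U ∧ U.Nonempty) ∧
    ∀ V : Set X, RelOpen 𝕜 K V → V.Nonempty → ∃ U ∈ P, U ⊆ V

/-- `K` is convex. -/
def IsConvex (K : Set X) : Prop :=
  ∀ x ∈ K, ∀ y ∈ K, ∀ t : ℝ, 0 ≤ t → t ≤ 1 → (t : 𝕜) • x + ((1 - t : ℝ) : 𝕜) • y ∈ K

/-- If `x = ∑ a_n e_n` is in `K` and all `|ε_n| = 1`, then `∑ ε_n a_n e_n` converges to an element of `K`. -/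
def PhaseInvariant (e : ℕ → X) (K : Set X) : Prop :=
  ∀ x ∈ K, ∀ a ε : ℕ → 𝕜, SumsTo 𝕜 e a x → (∀ n, ‖ε n‖ = 1) → ∃ y ∈ K, SumsTo 𝕜 e (fun n => ε n * a n) y

/-- Every nonempty relatively weakly open subset of `K` contains all points of `K` whose first `N` coefficients differ by less than
`r` from those of a certain point `∑_(n < N) c_n e_n` of `K`. -/
def Boxes (e : ℕ → X) (K : Set X) : Prop :=
  ∀ U : Set X, RelOpen 𝕜 K U → U.Nonempty →
    ∃ (N : ℕ) (c : ℕ → 𝕜) (r : ℝ), 0 < r ∧ ∑ n ∈ Finset.range N, c n • e n ∈ K ∧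
      ∀ y ∈ K, ∀ a : ℕ → 𝕜, SumsTo 𝕜 e a y → (∀ n < N, ‖a n - c n‖ < r) → y ∈ U

end defs

section proofs

variable {𝕜 : Type} [RCLike 𝕜] {X : Type u} [NormedAddCommGroup X] [NormedSpace 𝕜 X]

/-- a countable pi-base from coordinate boxes -/
theorem countable_of_boxes {e : ℕ → X} {φ : ℕ → StrongDual 𝕜 X} (K : Set X)
    (H : ∀ (V : Set (WeakSpace 𝕜 X)), IsOpen V → ∀ x₀ ∈ K, toWeakSpace 𝕜 X x₀ ∈ V →
      ∃ (a : ℕ →₀ 𝕜) (N : ℕ) (r : ℝ), Pool.Agent.helper34.PB.E e a ∈ K ∧ 0 < r ∧ (∀ n, N ≤ n → a n = 0) ∧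
      ∀ y ∈ K, (∀ n < N, ‖φ n y - a n‖ < r) → toWeakSpace 𝕜 X y ∈ V)
    (hbi : ∀ m n, φ m (e n) = if m = n then 1 else 0) : CountablePiBase 𝕜 K := by
  classical
  let q : ℕ → 𝕜 := TopologicalSpace.denseSeq 𝕜
  let box : ℕ × ℕ × (ℕ →₀ ℕ) → Set X := fun p =>
    {x | ∀ n < p.1, ‖φ n x - q (p.2.2 n)‖ < 1 / ((p.2.1 : ℝ) + 1)}
  have hboxopen : ∀ p, WeaklyOpen 𝕜 (box p) := by
    intro p
    have h1 : (toWeakSpace 𝕜 X).symm ⁻¹' box p = ⋂ n ∈ Finset.range p.1,
        {x : WeakSpace 𝕜 X | ‖φ n ((toWeakSpace 𝕜 X).symm x) - q (p.2.2 n)‖ < 1 / ((p.2.1 : ℝ) + 1)} := by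
      ext x
      simp [box]
    unfold WeaklyOpen
    rw [h1]
    refine isOpen_biInter_finset (fun n _ => ?_)
    have hc : Continuous (fun x : WeakSpace 𝕜 X => φ n ((toWeakSpace 𝕜 X).symm x)) :=
      WeakBilin.eval_continuous (topDualPairing 𝕜 X).flip (φ n)
    exact isOpen_lt ((hc.sub continuous_const).norm) continuous_const
  refine ⟨{U | (∃ p, U = box p ∩ K) ∧ U.Nonempty}, ?_, ?_, ?_⟩
  · refine (Set.countable_range fun p => box p ∩ K).mono ?_
    rintro U ⟨⟨p, rfl⟩, -⟩
    exact ⟨p, rfl⟩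
  · rintro U ⟨⟨p, rfl⟩, hU⟩
    exact ⟨⟨box p, hboxopen p, rfl⟩, hU⟩
  · rintro _ ⟨V, hV, rfl⟩ ⟨x₀, hx₀V, hx₀⟩
    obtain ⟨a, N, r, ha, hr, haN, hbox⟩ := H _ hV x₀ hx₀ hx₀V
    obtain ⟨m, hm⟩ := exists_nat_one_div_lt (show 0 < r / 2 by positivity)
    have hq : ∀ n, ∃ j : ℕ, ‖a n - q j‖ < 1 / ((m : ℝ) + 1) := by
      intro n
      obtain ⟨j, hj⟩ := (TopologicalSpace.denseRange_denseSeq 𝕜).exists_dist_lt (a n) (show (0 : ℝ) < 1 / ((m : ℝ) + 1) by positivity)
      exact ⟨j, by rwa [dist_eq_norm] at hj⟩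
    choose j hj using hq
    let Q : ℕ →₀ ℕ := Finsupp.onFinset (Finset.range N) (fun n => if n < N then j n else 0)
      (by intro n hn; by_contra h; rw [Finset.mem_range] at h; simp [h] at hn)
    have hQ : ∀ n < N, Q n = j n := by
      intro n hn
      simp [Q, hn]
    refine ⟨box (N, m, Q) ∩ K, ⟨⟨_, rfl⟩, Pool.Agent.helper34.PB.E e a, ?_, ha⟩, ?_⟩
    · intro n hn
      simp only at hn
      rw [Pool.Agent.helper34.PB.phi_E hbi]
      simp only
      rw [hQ n hn]
      exact hj n
    · rintro y ⟨hyb, hy⟩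
      refine ⟨?_, hy⟩
      have h5 := hbox y hy fun n hn => by
        have h1 := hyb n hn
        simp only at h1
        rw [hQ n hn] at h1
        have h2 := hj n
        calc ‖φ n y - a n‖ = ‖(φ n y - q (j n)) - (a n - q (j n))‖ := by rw [sub_sub_sub_cancel_right]
          _ ≤ ‖φ n y - q (j n)‖ + ‖a n - q (j n)‖ := norm_sub_le _ _
          _ < r := by linarith
      exact h5

variable {e : ℕ → X}

/-- the coefficients -/
noncomputable def coef (hb : IsSchauderBasis 𝕜 e) (x : X) : ℕ → 𝕜 := (hb x).choose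

theorem coef_sums (hb : IsSchauderBasis 𝕜 e) (x : X) : SumsTo 𝕜 e (coef hb x) x := (hb x).choose_spec.1

theorem coef_unique (hb : IsSchauderBasis 𝕜 e) (x : X) {a : ℕ → 𝕜} (ha : SumsTo 𝕜 e a x) : a = coef hb x :=
  (hb x).choose_spec.2 a ha

theorem sumsTo_single (n : ℕ) : SumsTo 𝕜 e (fun m => if m = n then (1 : 𝕜) else 0) (e n) := by
  unfold SumsTo
  refine tendsto_const_nhds.congr' ?_
  filter_upwards [eventually_ge_atTop (n + 1)] with N hN
  rw [Finset.sum_eq_single n]
  · rw [if_pos rfl, one_smul]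
  · intro m _ hm
    rw [if_neg hm, zero_smul]
  · intro h
    exact absurd (Finset.mem_range.2 (by omega)) h

theorem e_ne_zero (hb : IsSchauderBasis 𝕜 e) (n : ℕ) : e n ≠ 0 := by
  intro h0
  have h1 := coef_unique hb (e n) (sumsTo_single (𝕜 := 𝕜) (e := e) n)
  have h2 : SumsTo 𝕜 e (fun _ => (0 : 𝕜)) (e n) := by
    unfold SumsTo
    simp [h0]
  have h3 := coef_unique hb (e n) h2
  have h4 := congrFun (h1.trans h3.symm) n
  simp at h4

theorem term_le (hu : OneUnconditional 𝕜 e) {x : X} {c : ℕ → 𝕜} (h : SumsTo 𝕜 e c x) (n : ℕ) : ‖c n • e n‖ ≤ ‖x‖ := by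
  refine ge_of_tendsto (h.norm) ?_
  filter_upwards [eventually_ge_atTop (n + 1)] with N hN
  have h1 := hu N c (fun m => if m = n then 1 else -1) (by
    intro m
    split_ifs
    · exact norm_one
    · rw [norm_neg, norm_one])
  have h2 : c n • e n = (1 / 2 : 𝕜) • (∑ m ∈ Finset.range N, c m • e m + ∑ m ∈ Finset.range N, ((if m = n then 1 else -1) * c m) • e m) := by
    rw [← Finset.sum_add_distrib, Finset.sum_eq_single n]
    · rw [if_pos rfl, one_mul, ← two_smul 𝕜, smul_smul]
      norm_num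
    · intro m _ hm
      rw [if_neg hm, neg_one_mul, neg_smul, add_neg_cancel]
    · intro h
      exact absurd (Finset.mem_range.2 (by omega)) h
  rw [h2, norm_smul, norm_div, norm_one, RCLike.norm_two]
  have h3 := norm_add_le (∑ m ∈ Finset.range N, c m • e m) (∑ m ∈ Finset.range N, ((if m = n then 1 else -1) * c m) • e m)
  rw [h1] at h3
  linarith

/-- the coefficient functionals -/
noncomputable def coefL (hb : IsSchauderBasis 𝕜 e) (hu : OneUnconditional 𝕜 e) (n : ℕ) : StrongDual 𝕜 X :=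
  LinearMap.mkContinuous
    { toFun := fun x => coef hb x n
      map_add' := by
        intro x y
        have h : SumsTo 𝕜 e (fun n => coef hb x n + coef hb y n) (x + y) := by
          have h1 := (coef_sums hb x).add (coef_sums hb y)
          refine h1.congr fun N => ?_
          rw [← Finset.sum_add_distrib]
          exact Finset.sum_congr rfl fun m _ => (add_smul _ _ _).symm
        exact (congrFun (coef_unique hb (x + y) h) n).symm
      map_smul' := by
        intro t x
        have h : SumsTo 𝕜 e (fun n => t * coef hb x n) (t • x) := by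
          have h1 := (coef_sums hb x).const_smul t
          refine h1.congr fun N => ?_
          rw [Finset.smul_sum]
          exact Finset.sum_congr rfl fun m _ => (mul_smul _ _ _).symm
        exact (congrFun (coef_unique hb (t • x) h) n).symm } (‖e n‖⁻¹) (by
      intro x
      have h := term_le hu (coef_sums hb x) n
      rw [norm_smul] at h
      have hpos : 0 < ‖e n‖ := norm_pos_iff.mpr (e_ne_zero hb n)
      change ‖coef hb x n‖ ≤ _
      rw [inv_mul_eq_div, le_div_iff₀ hpos]
      exact h)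

theorem coefL_apply (hb : IsSchauderBasis 𝕜 e) (hu : OneUnconditional 𝕜 e) (n : ℕ) (x : X) : coefL hb hu n x = coef hb x n := rfl

theorem coefL_biorth (hb : IsSchauderBasis 𝕜 e) (hu : OneUnconditional 𝕜 e) (m n : ℕ) :
    coefL hb hu m (e n) = if m = n then 1 else 0 := by
  rw [coefL_apply]
  exact (congrFun (coef_unique hb (e n) (sumsTo_single (𝕜 := 𝕜) (e := e) n)) m).symm

/-- the unit ball is invariant -/
theorem ball_invariant [CompleteSpace X] (hu : OneUnconditional 𝕜 e) : PhaseInvariant 𝕜 e (Metric.closedBall (0 : X) 1) := by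
  classical
  intro x hx a ε ha hε
  have key : ∀ M N : ℕ, M ≤ N → ‖∑ n ∈ Finset.range N, (ε n * a n) • e n - ∑ n ∈ Finset.range M, (ε n * a n) • e n‖ =
      ‖∑ n ∈ Finset.range N, a n • e n - ∑ n ∈ Finset.range M, a n • e n‖ := by
    intro M N hMN
    have h1 := hu N (fun n => if n < M then 0 else a n) ε hε
    have h2 : ∀ c : ℕ → 𝕜, ∑ n ∈ Finset.range N, c n • e n - ∑ n ∈ Finset.range M, c n • e n =
        ∑ n ∈ Finset.range N, (if n < M then 0 else c n) • e n := by
      intro c
      rw [sub_eq_iff_eq_add]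
      have h3 : ∑ n ∈ Finset.range M, c n • e n = ∑ n ∈ Finset.range N, (if n < M then c n else 0) • e n := by
        rw [← Finset.sum_subset (Finset.range_mono hMN)]
        · exact Finset.sum_congr rfl fun n hn => by rw [if_pos (Finset.mem_range.1 hn)]
        · intro n _ hn
          rw [if_neg (fun h => hn (Finset.mem_range.2 h)), zero_smul]
      rw [h3, ← Finset.sum_add_distrib]
      refine Finset.sum_congr rfl fun n _ => ?_
      split_ifs
      · rw [zero_smul, zero_add]
      · rw [zero_smul, add_zero]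
    rw [h2, h2, ← h1]
    congr 1
    refine Finset.sum_congr rfl fun n _ => ?_
    split_ifs
    · rw [mul_zero]
    · rfl
  have hc : CauchySeq (fun N => ∑ n ∈ Finset.range N, (ε n * a n) • e n) := by
    have h1 : CauchySeq (fun N => ∑ n ∈ Finset.range N, a n • e n) := ha.cauchySeq
    rw [Metric.cauchySeq_iff'] at h1 ⊢
    intro δ hδ
    obtain ⟨N, hN⟩ := h1 δ hδ
    refine ⟨N, fun n hn => ?_⟩
    have h2 := hN n hn
    rw [dist_eq_norm] at h2 ⊢
    rwa [key N n hn]
  obtain ⟨y, hy⟩ := cauchySeq_tendsto_of_complete hc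
  refine ⟨y, ?_, hy⟩
  have h1 : ‖y‖ = ‖x‖ := by
    refine tendsto_nhds_unique hy.norm (ha.norm.congr fun N => ?_)
    exact (hu N a ε hε).symm
  rw [mem_closedBall_zero_iff] at hx ⊢
  rw [h1]
  exact hx

theorem ball_convex : IsConvex 𝕜 (Metric.closedBall (0 : X) 1) := by
  intro x hx y hy t h0 h1
  rw [mem_closedBall_zero_iff] at hx hy ⊢
  have h2 := norm_add_le ((t : 𝕜) • x) (((1 - t : ℝ) : 𝕜) • y)
  rw [norm_smul, norm_smul, RCLike.norm_ofReal, RCLike.norm_ofReal, abs_of_nonneg h0, abs_of_nonneg (by linarith : 0 ≤ 1 - t)] at h2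
  have h3 : t * ‖x‖ ≤ t * 1 := by gcongr
  have h4 : (1 - t) * ‖y‖ ≤ (1 - t) * 1 := mul_le_mul_of_nonneg_left hy (by linarith)
  linarith

theorem main (hb : IsSchauderBasis 𝕜 e) (hu : OneUnconditional 𝕜 e) (K : Set X) (hK : Bornology.IsBounded K) (hc : IsConvex 𝕜 K)
    (hi : PhaseInvariant 𝕜 e K) : CountablePiBase 𝕜 K ∧ Boxes 𝕜 e K := by
  obtain ⟨R, hR⟩ := hK.exists_norm_le
  have hexp : ∀ x : X, Tendsto (fun N => ∑ n ∈ Finset.range N, coefL hb hu n x • e n) atTop (𝓝 x) := fun x => coef_sums hb x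
  have hinv : ∀ x ∈ K, ∀ ε : ℕ → 𝕜, (∀ n, ‖ε n‖ = 1) → ∃ y ∈ K, ∀ n, coefL hb hu n y = ε n * coefL hb hu n x := by
    intro x hx ε hε
    obtain ⟨y, hy, h1⟩ := hi x hx (coef hb x) ε (coef_sums hb x) hε
    exact ⟨y, hy, fun n => (congrFun (coef_unique hb y h1) n).symm⟩
  have H := fun (V : Set (WeakSpace 𝕜 X)) (hV : IsOpen V) (x₀ : X) (hx₀ : x₀ ∈ K) (hxV : toWeakSpace 𝕜 X x₀ ∈ V) =>
    Pool.Agent.helper34.PB.cylinder hexp (coefL_biorth hb hu) K (max R 0) (le_max_right _ _) (fun x hx => (hR x hx).trans (le_max_left _ _)) hc hinv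
      V hV x₀ hx₀ hxV
  refine ⟨countable_of_boxes K H (coefL_biorth hb hu), ?_⟩
  rintro _ ⟨V, hV, rfl⟩ ⟨x₀, hxV, hx₀⟩
  obtain ⟨a, N, r, ha, hr, haN, h⟩ := H _ hV x₀ hx₀ hxV
  refine ⟨N, a, r, hr, ?_, fun y hy b hb1 hb2 => ⟨h y hy fun n hn => ?_, hy⟩⟩
  · rwa [Pool.Agent.helper34.PB.E_eq_sum a (Finset.range N) (by
      intro n hn
      rw [Finset.mem_range]
      by_contra h
      exact (Finsupp.mem_support_iff.mp hn) (haN n (not_lt.mp h)))] at ha
  · have h2 := hb2 n hn
    rw [coef_unique hb y hb1] at h2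
    exact h2

end proofs

/-- **Unit balls of spaces with a 1-unconditional basis have countable weak pi-bases**, and so have all bounded convex sets which
are invariant under a change of the phases of the coefficients; the pi-bases consist of coordinate boxes. -/
theorem result (𝕜 : Type) [RCLike 𝕜] (X : Type u) [NormedAddCommGroup X] [NormedSpace 𝕜 X] [CompleteSpace X] (e : ℕ → X)
    (hb : IsSchauderBasis 𝕜 e) (hu : OneUnconditional 𝕜 e) :
    -- the unit ball
    (CountablePiBase 𝕜 (Metric.closedBall (0 : X) 1) ∧ Boxes 𝕜 e (Metric.closedBall (0 : X) 1)) ∧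
    -- every bounded convex set which is invariant under a change of the phases
    (∀ K : Set X, Bornology.IsBounded K → IsConvex 𝕜 K → PhaseInvariant 𝕜 e K → CountablePiBase 𝕜 K ∧ Boxes 𝕜 e K) :=
  ⟨main hb hu (Metric.closedBall (0 : X) 1) Metric.isBounded_closedBall ball_convex (ball_invariant hu), main hb hu⟩

end Pool.Agent.Results.MP_53fbd4_an.UnconditionalPiBase
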